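import Pool.Agent.X193.EC.Deg

/-!
# Part COF for MP_2a9600_co
-/

set_option autoImplicit false

namespace Pool.Agent.X193.EC

open Finset Polynomial
open Pool.Agent.X79.EC

section

variable {V : Type} [Fintype V] [DecidableEq V] (G : SimpleGraph V) [DecidableRel G.Adj]

/-- the number of edges touching `W` -/
def tch (W : Finset V) : ℕ := (G.edgeFinset.filter (fun e => ∃ v ∈ e, v ∈ W)).card

lemma tch_add (W : Finset V) :
    tch G W + (G.edgeFinset.filter (fun e => ∀ v ∈ e, v ∉ W)).card = G.edgeFinset.card := by
  unfold tch
  rw [← Finset.card_filter_add_card_filter_not (s := G.edgeFinset) (fun e => ∃ v ∈ e, v ∈ W)]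
  congr 2
  ext e
  simp only [Finset.mem_filter, not_exists, not_and]

lemma tch_empty : tch G ∅ = 0 := by simp [tch]

lemma tch_singleton (v : V) : tch G {v} = G.degree v := by
  rw [← G.card_incidenceFinset_eq_degree, G.incidenceFinset_eq_filter, tch]
  congr 1
  ext e
  simp

lemma card_le_two (W : Finset V) (e : Sym2 V) (he : e ∈ G.edgeFinset) :
    (W.filter (fun v => v ∈ e)).card ≤ 2 * (if ∃ v ∈ e, v ∈ W then 1 else 0) := by
  induction e using Sym2.ind with
  | _ a b =>
    rw [filt_pair]
    split_ifs with h
    · exact (Finset.card_filter_le _ _).trans Finset.card_le_two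
    · rw [mul_zero, Nat.le_zero, Finset.card_eq_zero, Finset.filter_eq_empty_iff]
      intro v hv hW
      apply h
      refine ⟨v, ?_, hW⟩
      simpa [Sym2.mem_iff] using hv

lemma sum_le (W : Finset V) : ∑ v ∈ W, G.degree v ≤ 2 * tch G W := by
  rw [sum_deg, tch, Finset.card_filter, Finset.mul_sum]
  exact Finset.sum_le_sum fun e he => card_le_two G W e he

lemma sum_lt (W : Finset V) (a b : V) (hab : G.Adj a b) (ha : a ∈ W) (hb : b ∉ W) :
    ∑ v ∈ W, G.degree v < 2 * tch G W := by
  rw [sum_deg, tch, Finset.card_filter, Finset.mul_sum]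
  refine Finset.sum_lt_sum (fun e he => card_le_two G W e he) ⟨s(a, b), ?_, ?_⟩
  · rw [SimpleGraph.mem_edgeFinset, SimpleGraph.mem_edgeSet]; exact hab
  · rw [filt_pair, if_pos ⟨a, by simp, ha⟩]
    have : ({a, b} : Finset V).filter (fun v => v ∈ W) = {a} := by
      ext v; simp only [Finset.mem_filter, Finset.mem_insert, Finset.mem_singleton]
      constructor
      · rintro ⟨rfl | rfl, h⟩
        · rfl
        · exact absurd h hb
      · rintro rfl; exact ⟨Or.inl rfl, ha⟩
    rw [this, Finset.card_singleton]
    norm_num

lemma exists_boundary (hc : G.Connected) (W : Finset V) (h1 : W.Nonempty) (h2 : W ≠ univ) :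
    ∃ a b, G.Adj a b ∧ a ∈ W ∧ b ∉ W := by
  obtain ⟨u, hu⟩ := h1
  obtain ⟨v, hv⟩ : ∃ v, v ∉ W := by
    by_contra h
    push Not at h
    exact h2 (Finset.eq_univ_iff_forall.2 h)
  obtain ⟨p⟩ := hc.preconnected u v
  obtain ⟨d, -, h3, h4⟩ := p.exists_boundary_dart (W : Set V) hu hv
  exact ⟨d.fst, d.snd, d.adj, h3, h4⟩

variable (hc : G.Connected) (hd : ∀ v, 2 ≤ G.degree v) (hn : 4 ≤ Fintype.card V)

include hc hd hn

lemma tch_ge (W : Finset V) (h1 : W.Nonempty) (h2 : W.card ≤ 3 ∨ True) :
    min (W.card + 1) 4 ≤ tch G W := by
  have h3 : 2 * W.card ≤ ∑ v ∈ W, G.degree v := by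
    calc 2 * W.card = ∑ _v ∈ W, 2 := by rw [Finset.sum_const, smul_eq_mul, mul_comm]
      _ ≤ _ := Finset.sum_le_sum fun v _ => hd v
  by_cases hW : W = univ
  · have h4 := sum_le G W
    have : W.card = Fintype.card V := by rw [hW]; rfl
    omega
  · obtain ⟨a, b, hab, ha, hb⟩ := exists_boundary G hc W h1 hW
    have h4 := sum_lt G W a b hab ha hb
    omega

lemma tch_le_three (W : Finset V) (h : tch G W ≤ 3) (h1 : W.Nonempty) : W.card ≤ 2 := by
  have := tch_ge G hc hd hn W h1 (Or.inr trivial)
  omega

omit hc hd hn in
/-- two vertices -/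
lemma tch_pair (v w : V) (hvw : v ≠ w) :
    tch G {v, w} + (if G.Adj v w then 1 else 0) = G.degree v + G.degree w := by
  have h1 := sum_deg G {v, w}
  rw [Finset.sum_pair hvw] at h1
  rw [h1, tch, Finset.card_filter]
  have h2 : (if G.Adj v w then 1 else 0) = ∑ e ∈ G.edgeFinset, if e = s(v, w) then 1 else 0 := by
    rw [Finset.sum_ite_eq']
    simp [SimpleGraph.mem_edgeFinset]
  rw [h2, ← Finset.sum_add_distrib]
  refine Finset.sum_congr rfl fun e he => ?_
  by_cases h3 : e = s(v, w)
  · subst h3
    have : ({v, w} : Finset V).filter (fun x => x ∈ s(v, w)) = {v, w} := by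
      ext x; simp
    rw [this, Finset.card_pair hvw]
    simp
  · by_cases hv : v ∈ e <;> by_cases hw : w ∈ e
    · exact absurd ((Sym2.mem_and_mem_iff hvw).1 ⟨hv, hw⟩) h3
    · have : ({v, w} : Finset V).filter (fun x => x ∈ e) = {v} := by
        ext x; simp only [Finset.mem_filter, Finset.mem_insert, Finset.mem_singleton]
        constructor
        · rintro ⟨rfl | rfl, h⟩
          · rfl
          · exact absurd h hw
        · rintro rfl; exact ⟨Or.inl rfl, hv⟩
      rw [this, if_neg h3, if_pos ⟨v, hv, by simp⟩, Finset.card_singleton]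
    · have : ({v, w} : Finset V).filter (fun x => x ∈ e) = {w} := by
        ext x; simp only [Finset.mem_filter, Finset.mem_insert, Finset.mem_singleton]
        constructor
        · rintro ⟨rfl | rfl, h⟩
          · exact absurd h hv
          · rfl
        · rintro rfl; exact ⟨Or.inr rfl, hw⟩
      rw [this, if_neg h3, if_pos ⟨w, hw, by simp⟩, Finset.card_singleton]
    · have : ({v, w} : Finset V).filter (fun x => x ∈ e) = ∅ := by
        ext x; simp only [Finset.mem_filter, Finset.mem_insert, Finset.mem_singleton,
          Finset.notMem_empty, iff_false]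
        rintro ⟨rfl | rfl, h⟩
        · exact hv h
        · exact hw h
      rw [this, if_neg h3, if_neg, Finset.card_empty]
      rintro ⟨x, hx, hx2⟩
      simp only [Finset.mem_insert, Finset.mem_singleton] at hx2
      rcases hx2 with rfl | rfl
      · exact hv hx
      · exact hw hx

lemma coeff_eq (j : ℕ) (hj : j ≤ 3) :
    ((pZ G).comp (X - 1)).coeff (G.edgeFinset.card - j) =
      ∑ W ∈ univ.filter (fun W : Finset V => tch G W = j), (-1 : ℤ) ^ W.card := by
  have hm : 4 ≤ G.edgeFinset.card := by
    have h1 := tch_ge G hc hd hn univ (by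
      have : Nonempty V := Fintype.card_pos_iff.1 (by omega)
      exact Finset.univ_nonempty) (Or.inr trivial)
    have h2 := tch_add G univ
    have h3 : (univ : Finset V).card = Fintype.card V := rfl
    omega
  rw [t_IE V G, finsetSum_coeff, Finset.sum_filter]
  refine Finset.sum_congr rfl fun W _ => ?_
  rw [coeff_C_mul_X_pow]
  have h2 := tch_add G W
  by_cases h : tch G W = j
  · rw [if_pos h, if_pos (by omega)]
  · rw [if_neg h, if_neg (by omega)]

end

theorem t_COF : S_COF := by
  intro V _ _ G _ hc hd hn
  refine ⟨?_, ?_, ?_⟩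
  · rw [coeff_eq G hc hd hn 1 (by norm_num)]
    rw [Finset.filter_false_of_mem, Finset.sum_empty]
    intro W _ h
    rcases W.eq_empty_or_nonempty with rfl | h1
    · rw [tch_empty] at h; omega
    · have := tch_ge G hc hd hn W h1 (Or.inr trivial)
      have := Finset.card_pos.2 h1
      omega
  · rw [coeff_eq G hc hd hn 2 (by norm_num)]
    have : univ.filter (fun W : Finset V => tch G W = 2) =
        (univ.filter (fun v : V => G.degree v = 2)).image (fun v => ({v} : Finset V)) := by
      ext W
      simp only [Finset.mem_filter, Finset.mem_univ, true_and, Finset.mem_image]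
      constructor
      · intro h
        rcases W.eq_empty_or_nonempty with rfl | h1
        · rw [tch_empty] at h; omega
        · have h2 := tch_ge G hc hd hn W h1 (Or.inr trivial)
          have h3 := Finset.card_pos.2 h1
          obtain ⟨v, rfl⟩ := Finset.card_eq_one.1 (show W.card = 1 by omega)
          exact ⟨v, by rw [← tch_singleton]; exact h, rfl⟩
      · rintro ⟨v, hv, rfl⟩
        rw [tch_singleton]; exact hv
    rw [this, Finset.sum_image (by intro x _ y _ h; exact Finset.singleton_injective h)]
    simp [nd]
  · rw [coeff_eq G hc hd hn 3 (by norm_num)]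
    have : univ.filter (fun W : Finset V => tch G W = 3) =
        (univ.filter (fun v : V => G.degree v = 3)).image (fun v => ({v} : Finset V)) ∪
        (G.edgeFinset.filter (fun e => ∀ v ∈ e, G.degree v = 2)).image Sym2.toFinset := by
      ext W
      simp only [Finset.mem_filter, Finset.mem_univ, true_and, Finset.mem_image, Finset.mem_union]
      constructor
      · intro h
        rcases W.eq_empty_or_nonempty with rfl | h1
        · rw [tch_empty] at h; omega
        · have h2 := tch_ge G hc hd hn W h1 (Or.inr trivial)
          have h3 := Finset.card_pos.2 h1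
          have h4 : W.card = 1 ∨ W.card = 2 := by omega
          rcases h4 with h4 | h4
          · obtain ⟨v, rfl⟩ := Finset.card_eq_one.1 h4
            exact Or.inl ⟨v, by rw [← tch_singleton]; exact h, rfl⟩
          · obtain ⟨v, w, hvw, rfl⟩ := Finset.card_eq_two.1 h4
            have h5 := tch_pair G v w hvw
            have h6 := hd v
            have h7 := hd w
            right
            refine ⟨s(v, w), ⟨?_, ?_⟩, ?_⟩
            · rw [SimpleGraph.mem_edgeFinset, SimpleGraph.mem_edgeSet]
              by_contra h8
              rw [if_neg h8] at h5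
              omega
            · split_ifs at h5
              · intro x hx
                rw [Sym2.mem_iff] at hx
                rcases hx with rfl | rfl <;> omega
              · omega
            · ext x
              simp [Sym2.mem_toFinset]
      · rintro (⟨v, hv, rfl⟩ | ⟨e, ⟨he, h2⟩, rfl⟩)
        · rw [tch_singleton]; exact hv
        · induction e using Sym2.ind with
          | _ a b =>
            rw [SimpleGraph.mem_edgeFinset, SimpleGraph.mem_edgeSet] at he
            have h5 := tch_pair G a b he.ne
            rw [if_pos he, h2 a (by simp), h2 b (by simp)] at h5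
            have h6 : (s(a, b) : Sym2 V).toFinset = {a, b} := by
              ext x; simp [Sym2.mem_toFinset]
            rw [h6]
            omega
    rw [this, Finset.sum_union, Finset.sum_image (by intro x _ y _ h; exact Finset.singleton_injective h),
      Finset.sum_image]
    · have h7 : ∑ e ∈ G.edgeFinset.filter (fun e => ∀ v ∈ e, G.degree v = 2),
          (-1 : ℤ) ^ (Sym2.toFinset e).card = m22 G := by
        rw [m22, Finset.card_eq_sum_ones, Nat.cast_sum]
        refine Finset.sum_congr rfl fun e he => ?_
        have he' := (Finset.mem_filter.1 he).1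
        induction e using Sym2.ind with
        | _ a b =>
          rw [SimpleGraph.mem_edgeFinset, SimpleGraph.mem_edgeSet] at he'
          have h6 : (s(a, b) : Sym2 V).toFinset = {a, b} := by
            ext x; simp [Sym2.mem_toFinset]
          rw [h6, Finset.card_pair he'.ne]
          norm_num
      rw [h7]
      simp [nd]
      ring
    · intro e _ e' _ h
      apply Sym2.ext
      intro x
      rw [← Sym2.mem_toFinset, ← Sym2.mem_toFinset, h]
    · rw [Finset.disjoint_left]
      intro W h1 h2
      rw [Finset.mem_image] at h1 h2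
      obtain ⟨v, -, rfl⟩ := h1
      obtain ⟨e, he, h3⟩ := h2
      have he' := (Finset.mem_filter.1 he).1
      induction e using Sym2.ind with
      | _ a b =>
        rw [SimpleGraph.mem_edgeFinset, SimpleGraph.mem_edgeSet] at he'
        have h6 : (s(a, b) : Sym2 V).toFinset = {a, b} := by
          ext x; simp [Sym2.mem_toFinset]
        rw [h6] at h3
        have := congrArg Finset.card h3
        rw [Finset.card_pair he'.ne, Finset.card_singleton] at this
        omega

end Pool.Agent.X193.EC
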