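import Pool.Agent.X79.EC.Stm

/-!
# Parts DEG and IE for MP_2a9600_co
-/

set_option autoImplicit false

namespace Pool.Agent.X193.EC

open Finset Polynomial
open Pool.Agent.X79.EC

section

variable {V : Type} [Fintype V] [DecidableEq V] (G : SimpleGraph V) [DecidableRel G.Adj]

/-- double counting of incidences with the vertices in `W` -/
lemma sum_deg (W : Finset V) :
    ∑ v ∈ W, G.degree v = ∑ e ∈ G.edgeFinset, (W.filter (fun v => v ∈ e)).card := by
  have h1 : ∀ v, G.degree v = ∑ e ∈ G.edgeFinset, if v ∈ e then 1 else 0 := by
    intro v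
    rw [← G.card_incidenceFinset_eq_degree, G.incidenceFinset_eq_filter, Finset.card_filter]
  simp only [h1, Finset.card_filter]
  rw [Finset.sum_comm]

omit [Fintype V] in
lemma filt_pair (W : Finset V) (a b : V) :
    W.filter (fun v => v ∈ s(a, b)) = ({a, b} : Finset V).filter (fun v => v ∈ W) := by
  ext v
  simp only [Finset.mem_filter, Sym2.mem_iff, Finset.mem_insert, Finset.mem_singleton]
  tauto

end

theorem t_DEG : S_DEG := by
  intro V _ _ G _ hdeg
  have h1 : 2 * nd G 2 = ∑ v ∈ univ.filter (fun v : V => G.degree v = 2), G.degree v := by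
    rw [Finset.sum_congr rfl (g := fun _ => 2) (fun v hv => (Finset.mem_filter.1 hv).2),
      Finset.sum_const, smul_eq_mul, mul_comm]
    rfl
  rw [h1, sum_deg, m22, mhh, Finset.card_filter, Finset.card_filter, Finset.card_eq_sum_ones,
    ← Finset.sum_add_distrib, ← Finset.sum_add_distrib]
  refine Finset.sum_congr rfl fun e he => ?_
  induction e using Sym2.ind with
  | _ a b =>
    have hab : a ≠ b := by
      rw [SimpleGraph.mem_edgeFinset, SimpleGraph.mem_edgeSet] at he
      exact he.ne
    rw [filt_pair]
    have ha := hdeg a
    have hb := hdeg b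
    simp only [Sym2.mem_iff, forall_eq_or_imp, forall_eq, Finset.mem_filter, Finset.mem_univ,
      true_and]
    by_cases h2 : G.degree a = 2 <;> by_cases h3 : G.degree b = 2
    · have : ({a, b} : Finset V).filter (fun v => G.degree v = 2) = {a, b} := by
        ext v; simp only [Finset.mem_filter, Finset.mem_insert, Finset.mem_singleton]
        constructor
        · exact fun h => h.1
        · rintro (rfl | rfl) <;> simp [h2, h3]
      rw [this, Finset.card_pair hab]
      simp [h2, h3]
    · have : ({a, b} : Finset V).filter (fun v => G.degree v = 2) = {a} := by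
        ext v; simp only [Finset.mem_filter, Finset.mem_insert, Finset.mem_singleton]
        constructor
        · rintro ⟨rfl | rfl, h⟩
          · rfl
          · exact absurd h h3
        · rintro rfl; exact ⟨Or.inl rfl, h2⟩
      rw [this, Finset.card_singleton]
      simp [h2, h3]
    · have : ({a, b} : Finset V).filter (fun v => G.degree v = 2) = {b} := by
        ext v; simp only [Finset.mem_filter, Finset.mem_insert, Finset.mem_singleton]
        constructor
        · rintro ⟨rfl | rfl, h⟩
          · exact absurd h h2
          · rfl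
        · rintro rfl; exact ⟨Or.inr rfl, h3⟩
      rw [this, Finset.card_singleton]
      simp [h2, h3]
    · have : ({a, b} : Finset V).filter (fun v => G.degree v = 2) = ∅ := by
        ext v; simp only [Finset.mem_filter, Finset.mem_insert, Finset.mem_singleton,
          Finset.notMem_empty, iff_false]
        rintro ⟨rfl | rfl, h⟩
        · exact h2 h
        · exact h3 h
      rw [this, Finset.card_empty]
      have h4 : 3 ≤ G.degree a := by omega
      have h5 : 3 ≤ G.degree b := by omega
      simp [h2, h4, h5]

theorem t_IE : S_IE := by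
  intro V _ _ G _
  -- uncovered vertices
  have key : pZ G = ∑ W : Finset V, C ((-1 : ℤ) ^ W.card) *
      (X + 1) ^ (G.edgeFinset.filter (fun e => ∀ v ∈ e, v ∉ W)).card := by
    have h1 : ∀ W : Finset V, (X + 1 : ℤ[X]) ^ (G.edgeFinset.filter (fun e => ∀ v ∈ e, v ∉ W)).card =
        ∑ S ∈ G.edgeFinset.powerset, if (∀ e ∈ S, ∀ v ∈ e, v ∉ W) then X ^ S.card else 0 := by
      intro W
      rw [← Finset.sum_pow_mul_eq_add_pow, ← Finset.sum_filter]
      refine Finset.sum_congr ?_ fun S _ => by simp
      ext S
      simp only [Finset.mem_powerset, Finset.mem_filter, Finset.subset_iff]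
      constructor
      · intro h
        exact ⟨fun e he => (h he).1, fun e he => (h he).2⟩
      · rintro ⟨h, h'⟩ e he
        exact ⟨h he, h' e he⟩
    simp only [h1, Finset.mul_sum]
    rw [Finset.sum_comm]
    unfold pZ covs
    rw [Finset.sum_filter]
    refine Finset.sum_congr rfl fun S _ => ?_
    have h2 : ∑ W : Finset V, C ((-1 : ℤ) ^ W.card) *
        (if (∀ e ∈ S, ∀ v ∈ e, v ∉ W) then (X : ℤ[X]) ^ S.card else 0) =
        C (∑ W ∈ (univ.filter (fun v : V => ∀ e ∈ S, v ∉ e)).powerset, (-1 : ℤ) ^ W.card) *
          X ^ S.card := by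
      rw [map_sum, Finset.sum_mul]
      rw [← Finset.sum_filter_add_sum_filter_not (univ : Finset (Finset V))
        (fun W => ∀ e ∈ S, ∀ v ∈ e, v ∉ W)]
      rw [Finset.sum_eq_zero (s := univ.filter (fun W : Finset V => ¬ ∀ e ∈ S, ∀ v ∈ e, v ∉ W)), add_zero]
      · refine Finset.sum_congr ?_ fun W hW => ?_
        · ext W
          simp only [Finset.mem_filter, Finset.mem_univ, true_and, Finset.mem_powerset,
            Finset.subset_iff]
          constructor
          · intro h v hv e he hve
            exact h e he v hve hv
          · intro h e he v hve hv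
            exact h hv e he hve
        · have : ∀ e ∈ S, ∀ v ∈ e, v ∉ W := by
            intro e he v hve hv
            have := (Finset.mem_powerset.1 hW) hv
            exact (Finset.mem_filter.1 this).2 e he hve
          rw [if_pos this]
      · intro W hW
        rw [if_neg (Finset.mem_filter.1 hW).2, mul_zero]
    rw [h2, Finset.sum_powerset_neg_one_pow_card]
    by_cases h3 : ∀ v : V, ∃ e ∈ S, v ∈ e
    · rw [if_pos h3, if_pos, C_1, one_mul]
      ext v
      simp only [Finset.mem_filter, Finset.mem_univ, true_and, Finset.notMem_empty, iff_false]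
      intro h
      obtain ⟨e, he, hv⟩ := h3 v
      exact h e he hv
    · rw [if_neg h3, if_neg, C_0, zero_mul]
      intro h
      apply h3
      intro v
      by_contra h4
      push Not at h4
      have : v ∈ (univ.filter (fun v : V => ∀ e ∈ S, v ∉ e)) := by simpa using h4
      rw [h] at this
      exact absurd this (Finset.notMem_empty v)
  rw [key, Polynomial.sum_comp]
  refine Finset.sum_congr rfl fun W _ => ?_
  simp

end Pool.Agent.X193.EC
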